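import Mathlib
import Pool.Agent.H.MP_06821b_nt.A

set_option autoImplicit false

namespace Pool.Agent.Results.MP_06821b_nt.Cong

open PowerSeries

/-- the coefficient of `x ^ n` in the product of the `(1 - x ^ 2 ^ i) ^ (-m)` -/
noncomputable def b (m n : ℕ) : ℤ :=
  coeff n (∏ i ∈ Finset.range (n + 1),
    (PowerSeries.mk fun j : ℕ => if 2 ^ i ∣ j then (1 : ℤ) else 0) ^ m)

theorem result (m n k : ℕ) (hm : 1 ≤ m) (hk : m + 2 ≤ k) :
    b (2 ^ m) (2 ^ (k + 1) * n) ≡ b (2 ^ m) (2 ^ (k - 1) * n) [ZMOD 2 ^ k] :=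
  Pool.Agent.H.MP_06821b_nt.main m k n hm hk

end Pool.Agent.Results.MP_06821b_nt.Cong
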